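import Pool.Agent.Q79.QD.Main

/-!
# Restricted quasi-diagonals in odd powers (problem MP_9fbe61_ag, Q1: yes)

The definitions are in `Pool.Agent.Q79.QD.LBDefs` (line bundles), `Pool.Agent.Q79.QD.CurveDefs`
(smooth curves, quasi-diagonals) and `Pool.Agent.Q79.QD.RDefs` (the elliptic curve with the affine
equation `y² = x³ + α x + β` and its group of complex points, restricted quasi-diagonals).

The proof: a horizontal line `y = c` meets `E` in three points `P₁, P₂, P₃` with `P₁ + P₂ + P₃ = 0`.
The curve `S` of all such ordered triples is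
`X₁³ + α X₁ Z² + β Z³ - Y² Z = X₂² + X₁ X₂ + X₁² + α Z² = 0` in projective three-space, which is
irreducible for `α ≠ 0`; the three maps `S → E` are `(X₁ : Y : Z)`, `(X₂ : Y : Z)` and
`(-X₁ - X₂ : Y : Z)`, and each of them pulls back `L = 𝒪(1)` to the pull back of `𝒪(1)` from the
`y`-line.  The other components of the embedding `S → E ^ n` are `P₁` and `-P₁`, in turn.
-/

set_option autoImplicit false

open AlgebraicGeometry CategoryTheory Limits MvPolynomial

namespace Pool.Agent.Results.MP_9fbe61_ag.OddPowers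

open Pool.Agent.Helper304.Ses Pool.Agent.H666R3.NG Pool.Agent.Helper198.Sch Pool.Agent.Q79.QD

attribute [local instance] MvPolynomial.gradedAlgebra

/-- **Theorem.**  Let `α ≠ 0`, `4 α³ + 27 β² ≠ 0` and let `n ≥ 3` be odd.  On the elliptic curve `E`
with the affine equation `y² = x³ + α x + β` there is an ample line bundle `L` such that `E ^ n`
contains a restricted quasi-diagonal over `(E, L)`.  (The elliptic curves with `α ≠ 0` are the elliptic
curves with `j(E) ≠ 0`; every elliptic curve without complex multiplication is of this form.) -/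
theorem result (α β : ℂ) (hα : α ≠ 0) (hΔ : 4 * α ^ 3 + 27 * β ^ 2 ≠ 0) (n : ℕ) (hn : 3 ≤ n)
    (hodd : Odd n) :
    ∃ (E : Scheme.{0}) (sE : E ⟶ Cpt) (o : Cpt ⟶ E) (a : Spec (.of (WE α β).CoordinateRing) ⟶ E),
      IsModel (WE α β) sE o a ∧
      ∃ (L : LBd E) (S : Scheme.{0}) (j : S ⟶ (pwr sE n).left),
        L.IsAmple ∧ IsQuasiDiagonal sE L n j ∧ IsRestricted (WE α β) sE o a n j := by
  obtain ⟨k, rfl⟩ : ∃ k, n = 3 + 2 * k := by
    obtain ⟨m, hm⟩ := hodd
    exact ⟨m - 1, by omega⟩
  obtain ⟨j, hj, h1, h2⟩ := exists_restricted hα hΔ k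
  exact ⟨_, _, _, _, isModel α β hα hΔ, O1' _ eE he_E, _, j, isAmple_O1 he_E, h1, h2⟩

end Pool.Agent.Results.MP_9fbe61_ag.OddPowers
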